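import Mathlib
import Pool.Agent.Y395.SP.Stm

set_option autoImplicit false

namespace Pool.Agent.Y388.SP

open Pool.Agent.H581R2.Splay Pool.Agent.TH49.Spl Pool.Agent.Y395.SP

theorem rotN_trans {e f : ℕ} {T U V : Tr} (h : RotN e T U) (g : RotN f U V) :
    RotN (e + f) T V := by
  induction h with
  | refl T => simpa using g
  | step e s T T' T'' hr h ih =>
    have h2 := RotN.step (e + f) s T T' V hr (ih g)
    have h3 : e + f + 1 = e + 1 + f := by omega
    rwa [h3] at h2

theorem rotN_l (a : ℕ) {e : ℕ} {L L' : Tr} (R : Tr) (h : RotN e L L') :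
    RotN e (Tr.node a L R) (Tr.node a L' R) := by
  induction h with
  | refl T => exact RotN.refl _
  | step e s T T' T'' hr h ih => exact RotN.step e s _ _ _ (Rot.inl a T T' R s hr) ih

theorem rotN_r (a : ℕ) {e : ℕ} {R R' : Tr} (L : Tr) (h : RotN e R R') :
    RotN e (Tr.node a L R) (Tr.node a L R') := by
  induction h with
  | refl T => exact RotN.refl _
  | step e s T T' T'' hr h ih => exact RotN.step e s _ _ _ (Rot.inr a L T T' s hr) ih

theorem rot_keys {T T' : Tr} {s : ℕ} (h : Rot T T' s) : keys T' = keys T := by
  induction h with
  | right a b A B C => simp [keys]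
  | left a b A B C => simp [keys]
  | inl a L L' R s h ih => simp [keys, ih]
  | inr a L R R' s h ih => simp [keys, ih]

theorem rotN_keys {T T' : Tr} {e : ℕ} (h : RotN e T T') : keys T' = keys T := by
  induction h with
  | refl T => rfl
  | step e s T T' T'' hr h ih => rw [ih, rot_keys hr]

theorem sim_rotN {D' D : Ctx} {s : ℕ} (h : Sim D' D s) : RotN s (erase D') (erase D) := by
  induction h with
  | hole t t' s h => exact h
  | node a l l' r r' s s' hl hr ihl ihr =>
    exact rotN_trans (rotN_l a (erase r) ihl) (rotN_r a (erase l') ihr)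

theorem ref_erase {D C : Ctx} (h : Ref D C) : erase D = erase C := by
  induction h with
  | hole C => rfl
  | node a l r l' r' hl hr ihl ihr => simp [erase, ihl, ihr]

theorem sim_mem {D' D : Ctx} {s : ℕ} (h : Sim D' D s) (x : ℕ) :
    Sum.inr x ∈ fl D → Sum.inr x ∈ fl D' := by
  induction h with
  | hole t t' s h => simp [fl]
  | node a l l' r r' s s' hl hr ihl ihr =>
    simp only [fl, List.mem_append, List.mem_cons]
    tauto

theorem ref_mem {D C : Ctx} (h : Ref D C) (x : ℕ) : Sum.inr x ∈ fl D → Sum.inr x ∈ fl C := by
  induction h with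
  | hole C => simp [fl]
  | node a l r l' r' hl hr ihl ihr =>
    simp only [fl, List.mem_append, List.mem_cons]
    tauto

/-- the search path of `x` -/
def P (x : ℕ) : Tr → Ctx
  | .nil => .hole .nil
  | .node a l r => if x = a then .node a (.hole l) (.hole r)
      else if x < a then .node a (P x l) (.hole r) else .node a (.hole l) (P x r)

theorem erase_P (x : ℕ) (T : Tr) : erase (P x T) = T := by
  induction T with
  | nil => rfl
  | node a l r ihl ihr =>
    unfold P
    split_ifs <;> simp [erase, ihl, ihr]

theorem msize_P (x : ℕ) (T : Tr) : msize (P x T) ≤ dep x T + 1 := by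
  induction T with
  | nil => simp [P, msize]
  | node a l r ihl ihr =>
    unfold P dep
    split_ifs <;> simp only [msize] <;> omega

theorem mem_P (x : ℕ) (T : Tr) (hT : IsBST T) (hx : x ∈ keys T) : Sum.inr x ∈ fl (P x T) := by
  induction T with
  | nil => simp [keys] at hx
  | node a l r ihl ihr =>
    unfold IsBST keys at hT
    rw [List.pairwise_append, List.pairwise_cons] at hT
    obtain ⟨h1, ⟨h2, h3⟩, h4⟩ := hT
    simp only [keys, List.mem_append, List.mem_cons] at hx
    unfold P
    split_ifs with ha hb
    · simp [fl, ha]
    · have hl : x ∈ keys l := by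
        rcases hx with hx | hx | hx
        · exact hx
        · exact absurd hx ha
        · have := h2 x hx
          omega
      simp only [fl, List.mem_append, List.mem_cons]
      exact Or.inl (ihl h1 hl)
    · have hr : x ∈ keys r := by
        rcases hx with hx | hx | hx
        · have := h4 x hx a (by simp)
          omega
        · exact absurd hx ha
        · exact hx
      simp only [fl, List.mem_append, List.mem_cons]
      exact Or.inr (Or.inr (ihr h3 hr))

theorem main (hP : SPull) : SSim := by
  intro X
  induction X with
  | nil =>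
    intro s c K V _ _ _ _
    exact ⟨0, Nat.zero_le _, Lazy.nil K⟩
  | cons x Y ih =>
    intro s c K V hV hs hE hX
    cases hE with
    | cons _ V' _ _ e c' hrot hE' =>
      have hxV : x ∈ keys V := hX x (by simp)
      obtain ⟨r, hr, C, C', D', hCK, hCC, hms, hRef, hSim⟩ := hP s K V hs (P x V) (erase_P x V)
      have hDV : RotN (s - r) (erase C') V := by
        have := sim_rotN hSim
        rwa [erase_P, ref_erase hRef] at this
      have hkV' : keys V' = keys V := rotN_keys hrot
      have hmem : Sum.inr x ∈ fl C := by
        rw [hCC]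
        exact ref_mem hRef x (sim_mem hSim x (mem_P x V hV hxV))
      obtain ⟨w, hw, hL⟩ := ih (s - r + e) c' (erase C') V' (by unfold IsBST; rw [hkV']; exact hV)
        (rotN_trans hDV hrot) hE' (by
          intro y hy
          rw [hkV']
          exact hX y (by simp [hy]))
      have hms' := msize_P x V
      refine ⟨(dep x V + 1 + r) + w, by omega, ?_⟩
      rw [← hCK]
      exact Lazy.cons C C' x Y (dep x V + 1 + r) w hCC (by omega) hmem hL

end Pool.Agent.Y388.SP
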